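import Pool.Agent.helper41.HFE.Spec

/-! # Row hfe:PRM (MP_3221a1_ag): the points on an irreducible curve of bidegree `(1, 1)` are in different rows and columns -/

set_option autoImplicit false

open Polynomial Module Pool.Agent.HFN

namespace Pool.Agent.HFE

noncomputable section

open Pool.Agent.helper29.JZ in
theorem PRM : PRM_stmt := by
  classical
  intro hF h h' x y M hx hy f hf
  obtain ⟨a, b, c, d, hdet, hev⟩ := hF.1 f hf
  refine ⟨M.filter (fun z => ev (x z.1, y z.2) f = 0), Finset.filter_subset _ _, ⟨?_, ?_⟩, ?_⟩
  · intro z hz z' hz' h1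
    rw [Finset.mem_filter] at hz hz'
    have e1 : a * x z.1 * y z.2 + b * y z.2 + c * x z.1 + d = 0 := by
      have := hz.2
      rwa [hev] at this
    have e2 : a * x z.1 * y z'.2 + b * y z'.2 + c * x z.1 + d = 0 := by
      have := hz'.2
      rwa [hev, ← h1] at this
    by_contra hne
    have hYne : y z.2 ≠ y z'.2 := fun h => hne (Prod.ext h1 (hy h))
    have h3 : (a * x z.1 + b) * (y z.2 - y z'.2) = 0 := by linear_combination e1 - e2
    have h4 : a * x z.1 + b = 0 := by
      rcases mul_eq_zero.1 h3 with h | h
      · exact h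
      · exact absurd (sub_eq_zero.1 h) hYne
    have h5 : c * x z.1 + d = 0 := by linear_combination e1 - y z.2 * h4
    apply hdet
    linear_combination a * h5 - c * h4
  · intro z hz z' hz' h1
    rw [Finset.mem_filter] at hz hz'
    have e1 : a * x z.1 * y z.2 + b * y z.2 + c * x z.1 + d = 0 := by
      have := hz.2
      rwa [hev] at this
    have e2 : a * x z'.1 * y z.2 + b * y z.2 + c * x z'.1 + d = 0 := by
      have := hz'.2
      rwa [hev, ← h1] at this
    by_contra hne
    have hXne : x z.1 ≠ x z'.1 := fun h => hne (Prod.ext (hx h) h1)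
    have h3 : (a * y z.2 + c) * (x z.1 - x z'.1) = 0 := by linear_combination e1 - e2
    have h4 : a * y z.2 + c = 0 := by
      rcases mul_eq_zero.1 h3 with h | h
      · exact h
      · exact absurd (sub_eq_zero.1 h) hXne
    have h5 : b * y z.2 + d = 0 := by linear_combination e1 - x z.1 * h4
    apply hdet
    linear_combination a * h5 - b * h4
  · have hinj : Function.Injective (fun z : Fin h × Fin h' => (x z.1, y z.2)) := by
      intro z z' hz
      have h1 := congrArg Prod.fst hz
      have h2 := congrArg Prod.snd hz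
      exact Prod.ext (hx h1) (hy h2)
    have h1 : (ZZ x y M).filter (fun z => ev z f = 0) =
        (M.filter (fun z => ev (x z.1, y z.2) f = 0)).image (fun z => (x z.1, y z.2)) := by
      ext z
      simp only [ZZ, Finset.mem_filter, Finset.mem_image]
      constructor
      · rintro ⟨⟨w, hw, rfl⟩, h2⟩
        exact ⟨w, ⟨hw, h2⟩, rfl⟩
      · rintro ⟨w, ⟨hw, h2⟩, rfl⟩
        exact ⟨⟨w, hw, rfl⟩, h2⟩
    have h2 : nn (ZZ x y M) f = ((ZZ x y M).filter (fun z => ev z f = 0)).card := by
      unfold nn
      simp only
    rw [h2, h1, Finset.card_image_of_injective _ hinj]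

end

end Pool.Agent.HFE
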