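import Pool.Agent.helper41.HFE.SpecD

set_option autoImplicit false

open Polynomial Module Pool.Agent.HFN

namespace Pool.Agent.HFE

noncomputable section

lemma GN4_pow (b : ℕ) (hb : 1 ≤ b) (c : ℂ) : {τ : ℂ | τ ^ b = c}.Finite := by
  classical
  apply (Multiset.toFinset (nthRoots b c)).finite_toSet.subset
  intro τ hτ
  rw [Finset.mem_coe, Multiset.mem_toFinset, mem_nthRoots (by omega)]
  exact hτ

lemma GN4_inj {b : ℕ} {ζ : Fin b → ℂ} (hζ : Function.Injective ζ) (hζb : ∀ s, ζ s ^ b = 1) {n : ℕ} {t : Fin n → ℂ}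
    (h0 : ∀ m, t m ≠ 0) (hinj : Function.Injective fun m => t m ^ b) {m m' : Fin n} {s s' : Fin b}
    (h : ζ s * t m = ζ s' * t m') : m = m' ∧ s = s' := by
  have h1 : (ζ s * t m) ^ b = (ζ s' * t m') ^ b := by rw [h]
  rw [mul_pow, mul_pow, hζb, hζb, one_mul, one_mul] at h1
  have h2 : m = m' := hinj h1
  subst h2
  exact ⟨rfl, hζ (mul_right_cancel₀ (h0 m) h)⟩

lemma GN4_step (hGN3 : GN3_stmt) (hHIT : HIT_stmt) (b : ℕ) (hb : 1 ≤ b) (ζ : Fin b → ℂ) (hζ : Function.Injective ζ)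
    (hζb : ∀ s, ζ s ^ b = 1) (n : ℕ) (t : Fin n → ℂ) (ht : Gy b ζ n t) : ∃ t' : Fin (n + 1) → ℂ, Gy b ζ (n + 1) t' := by
  classical
  obtain ⟨h0, hinj, hG⟩ := ht
  have hfin := ((hGN3 b hb ζ hζb n t).union (Set.finite_singleton (0 : ℂ))).union
    (Set.finite_iUnion fun m : Fin n => GN4_pow b hb (t m ^ b))
  obtain ⟨τ, hτ⟩ := hfin.exists_notMem
  rw [Set.mem_union, Set.mem_union, not_or, not_or] at hτ
  obtain ⟨⟨hτ1, hτ2⟩, hτ3⟩ := hτ
  have hτ0 : τ ≠ 0 := hτ2
  have hτb : ∀ m, τ ^ b ≠ t m ^ b := by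
    intro m h
    exact hτ3 (Set.mem_iUnion.2 ⟨m, h⟩)
  obtain ⟨t', ht'⟩ : ∃ t' : Fin (n + 1) → ℂ, t' = Fin.cons τ t := ⟨_, rfl⟩
  have ht0 : t' 0 = τ := by rw [ht', Fin.cons_zero]
  have hts : ∀ k : Fin n, t' k.succ = t k := fun k => by rw [ht', Fin.cons_succ]
  have h0' : ∀ m, t' m ≠ 0 := by
    intro m
    refine Fin.cases ?_ (fun k => ?_) m
    · rw [ht0]; exact hτ0
    · rw [hts]; exact h0 k
  have hinj' : Function.Injective fun m => t' m ^ b := by
    intro m m'
    refine Fin.cases ?_ (fun k => ?_) m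
    · refine Fin.cases ?_ (fun k' => ?_) m'
      · intro _; rfl
      · intro h
        simp only [ht0, hts] at h
        exact absurd h (hτb k')
    · refine Fin.cases ?_ (fun k' => ?_) m'
      · intro h
        simp only [ht0, hts] at h
        exact absurd h.symm (hτb k)
      · intro h
        simp only [hts] at h
        rw [hinj h]
  refine ⟨t', h0', hinj', ?_⟩
  intro g hirr hx hy hna S hS
  obtain ⟨hH1, hH2⟩ := hHIT g hirr hx hy
  obtain ⟨S1, hS1⟩ : ∃ S1 : Finset (Fin (n + 1) × Fin (n + 1) × Fin b), S1 = S.filter fun q => q.1 = 0 := ⟨_, rfl⟩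
  obtain ⟨S2, hS2⟩ : ∃ S2 : Finset (Fin (n + 1) × Fin (n + 1) × Fin b), S2 = S.filter fun q => q.2.1 = 0 := ⟨_, rfl⟩
  obtain ⟨T, hT⟩ : ∃ T : Finset (Fin n × Fin n × Fin b), T = Finset.univ.filter fun q => (q.1.succ, q.2.1.succ, q.2.2) ∈ S := ⟨_, rfl⟩
  have hTm : ∀ q : Fin n × Fin n × Fin b, q ∈ T ↔ (q.1.succ, q.2.1.succ, q.2.2) ∈ S := by
    intro q
    rw [hT, Finset.mem_filter]
    exact ⟨fun h => h.2, fun h => ⟨Finset.mem_univ _, h⟩⟩
  have hTe : ∀ q ∈ T, ev (t q.1 ^ b, ζ q.2.2 * t q.2.1) g = 0 := by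
    intro q hq
    have h := hS _ ((hTm q).1 hq)
    simp only [hts] at h
    exact h
  have hTG : T.card ≤ 2 * (dX g * dY g) + dY g + b * dX g := hG g hirr hx hy hna T hTe
  have hc1 : S1.card ≤ dY g := by
    have hi : Set.InjOn (fun q : Fin (n + 1) × Fin (n + 1) × Fin b => ζ q.2.2 * t' q.2.1) S1 := by
      rintro ⟨p, m, s⟩ hq ⟨p', m', s'⟩ hq' h
      rw [Finset.mem_coe, hS1, Finset.mem_filter] at hq hq'
      obtain ⟨e1, e2⟩ := GN4_inj hζ hζb h0' hinj' h
      have e3 : p = 0 := hq.2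
      have e4 : p' = 0 := hq'.2
      subst e1 e2 e3
      rw [e4]
    rw [← Finset.card_image_of_injOn hi]
    apply hH1 (τ ^ b)
    intro y hy'
    obtain ⟨q, hq, rfl⟩ := Finset.mem_image.1 hy'
    rw [hS1, Finset.mem_filter] at hq
    have h := hS q hq.1
    rw [hq.2, ht0] at h
    exact h
  have hc2 : S2.card ≤ b * dX g := by
    have h1 : ∀ s ∈ S2.image (fun q => q.2.2), (S2.filter fun q => q.2.2 = s).card ≤ dX g := by
      intro s _
      have hi : Set.InjOn (fun q : Fin (n + 1) × Fin (n + 1) × Fin b => t' q.1 ^ b) (S2.filter fun q => q.2.2 = s) := by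
        rintro ⟨p, m, s1⟩ hq ⟨p', m', s2⟩ hq' h
        rw [Finset.mem_coe, Finset.mem_filter, hS2, Finset.mem_filter] at hq hq'
        have e1 : p = p' := hinj' h
        have e2 : m = 0 := hq.1.2
        have e3 : m' = 0 := hq'.1.2
        have e4 : s1 = s := hq.2
        have e5 : s2 = s := hq'.2
        rw [e1, e2, e3, e4, e5]
      rw [← Finset.card_image_of_injOn hi]
      apply hH2 (ζ s * τ)
      intro x hx'
      obtain ⟨q, hq, rfl⟩ := Finset.mem_image.1 hx'
      rw [Finset.mem_filter, hS2, Finset.mem_filter] at hq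
      have h := hS q hq.1.1
      rw [hq.2, hq.1.2, ht0] at h
      exact h
    have h2 := Finset.card_le_mul_card_image S2 (dX g) h1
    have h3 : (S2.image (fun q => q.2.2)).card ≤ b := by
      refine (Finset.card_le_univ _).trans ?_
      rw [Fintype.card_fin]
    calc S2.card ≤ dX g * (S2.image (fun q => q.2.2)).card := h2
      _ ≤ dX g * b := Nat.mul_le_mul_left _ h3
      _ = b * dX g := Nat.mul_comm _ _
  have hsub : S ⊆ (T.image fun q => (q.1.succ, q.2.1.succ, q.2.2)) ∪ (S1 ∪ S2) := by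
    rintro ⟨p1, p2, s⟩ hp
    rw [Finset.mem_union, Finset.mem_union]
    by_cases h1 : p1 = 0
    · right
      left
      rw [hS1, Finset.mem_filter]
      exact ⟨hp, h1⟩
    · by_cases h2 : p2 = 0
      · right
        right
        rw [hS2, Finset.mem_filter]
        exact ⟨hp, h2⟩
      · left
        obtain ⟨k, rfl⟩ := Fin.exists_succ_eq.2 h1
        obtain ⟨l, rfl⟩ := Fin.exists_succ_eq.2 h2
        rw [Finset.mem_image]
        exact ⟨(k, l, s), (hTm (k, l, s)).2 hp, rfl⟩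
  have hcard : S.card ≤ T.card + (S1 ∪ S2).card :=
    ((Finset.card_le_card hsub).trans (Finset.card_union_le _ _)).trans (Nat.add_le_add_right Finset.card_image_le _)
  by_cases hem : S1 ∪ S2 = ∅
  · rw [hem, Finset.card_empty] at hcard
    omega
  have h12 : (S1 ∪ S2).card ≤ S1.card + S2.card := Finset.card_union_le _ _
  by_contra hlt
  have hT3 : 2 * (dX g * dY g) < T.card := by omega
  apply hτ1
  refine ⟨g, hirr, hx, hy, hna, ⟨T.image fun q => (t q.1 ^ b, ζ q.2.2 * t q.2.1), ?_, ?_⟩, ?_⟩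
  · intro z hz
    obtain ⟨q, hq, rfl⟩ := Finset.mem_image.1 hz
    exact ⟨hTe q hq, q.1, q.2.1, q.2.2, rfl⟩
  · rw [Finset.card_image_of_injective]
    · exact hT3
    · rintro ⟨p, m, s⟩ ⟨p', m', s'⟩ h
      have h1 : t p ^ b = t p' ^ b := congrArg Prod.fst h
      have h2 : ζ s * t m = ζ s' * t m' := congrArg Prod.snd h
      obtain ⟨e1, e2⟩ := GN4_inj hζ hζb h0 hinj h2
      have e3 : p = p' := hinj h1
      rw [e1, e2, e3]
  · obtain ⟨⟨p1, p2, s⟩, hp⟩ := Finset.nonempty_iff_ne_empty.2 hem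
    rw [Finset.mem_union, hS1, hS2, Finset.mem_filter, Finset.mem_filter] at hp
    rcases hp with ⟨hpS, hp0⟩ | ⟨hpS, hp0⟩
    · have h := hS _ hpS
      have hp0' : p1 = 0 := hp0
      subst hp0'
      by_cases h2 : p2 = 0
      · subst h2
        right
        right
        simp only [ht0] at h
        exact ⟨s, h⟩
      · obtain ⟨l, rfl⟩ := Fin.exists_succ_eq.2 h2
        left
        simp only [ht0, hts] at h
        exact ⟨l, s, h⟩
    · have h := hS _ hpS
      have hp0' : p2 = 0 := hp0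
      subst hp0'
      by_cases h2 : p1 = 0
      · subst h2
        right
        right
        simp only [ht0] at h
        exact ⟨s, h⟩
      · obtain ⟨l, rfl⟩ := Fin.exists_succ_eq.2 h2
        right
        left
        simp only [ht0, hts] at h
        exact ⟨l, s, h⟩

theorem GN4 : GN4_stmt := by
  intro hGN3 hHIT b hb ζ hζ hζb n
  induction n with
  | zero =>
    refine ⟨Fin.elim0, fun m => m.elim0, fun m => m.elim0, ?_⟩
    intro g _ _ _ _ S _
    have h : S = ∅ := by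
      rw [Finset.eq_empty_iff_forall_notMem]
      intro q
      exact q.1.elim0
    rw [h, Finset.card_empty]
    exact Nat.zero_le _
  | succ n ih =>
    obtain ⟨t, ht⟩ := ih
    exact GN4_step hGN3 hHIT b hb ζ hζ hζb n t ht

end

end Pool.Agent.HFE
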