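import Pool.Agent.helper41.HFE.SpecK

/-! # Row hfe:NUK (MP_3221a1_ag): arithmetic -/

set_option autoImplicit false

open Polynomial Module Pool.Agent.HFN

namespace Pool.Agent.HFE

noncomputable section

theorem NUK : NUK_stmt := by
  intro K r v i s b b' hK hi hr hb hb' hbK hs h1 h2
  obtain ⟨u, rfl⟩ : ∃ u, b = u + 1 := ⟨b - 1, by omega⟩
  obtain ⟨t, rfl⟩ : ∃ t, b' = t + 1 := ⟨b' - 1, by omega⟩
  rw [Nat.add_sub_cancel] at h1
  have ht : t + 2 ≤ K := by omega
  have hu : u + 2 ≤ K := by omega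
  have hst : s + t + 2 ≤ K := by omega
  have hit : K * t ≤ i * t := Nat.mul_le_mul_right t hi
  zify at *
  rcases h2 with h2 | h2
  · -- first case
    have h3 : (K : ℤ) * K - K - 1 ≤ (5 - K) * t := by linarith
    rcases le_total (5 : ℤ) K with h5 | h5
    · have h6 : (5 - (K : ℤ)) * t ≤ 0 := mul_nonpos_of_nonpos_of_nonneg (by linarith) (by positivity)
      nlinarith
    · have h7 : 2 * ((K : ℤ) - 2) * ((K : ℤ) - 2) + 1 + (5 - K) * ((K : ℤ) - 2 - t) ≤ 0 := by nlinarith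
      have h8 : 0 ≤ (5 - (K : ℤ)) * ((K : ℤ) - 2 - t) := mul_nonneg (by linarith) (by linarith)
      nlinarith
  · have h3 : (K : ℤ) * K + K - 5 ≤ t * (2 * u + 5 - K) + 2 * u := by nlinarith
    rcases le_total (0 : ℤ) (2 * u + 5 - K) with h5 | h5
    · have h6 : (t : ℤ) * (2 * u + 5 - K) ≤ (K - 2) * (2 * u + 5 - K) := mul_le_mul_of_nonneg_right (by linarith) h5
      have h7 : ((K : ℤ) - 2) * (2 * u + 5 - K) ≤ (K - 2) * (K + 1) := mul_le_mul_of_nonneg_left (by linarith) (by linarith)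
      nlinarith
    · have h6 : (t : ℤ) * (2 * u + 5 - K) ≤ 0 := mul_nonpos_of_nonneg_of_nonpos (by positivity) h5
      nlinarith

end

end Pool.Agent.HFE
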